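import Pool.Agent.H25.End1

set_option autoImplicit false

namespace Pool.Agent.Results.MP_593132_lc.SharpP
open Pool.Agent.H11.PT Pool.Agent.H25.BN Pool.Agent.H25.SP

abbrev A := ℕ × ℕ × ℕ

def mat (els : List A) (rel : A → A → Bool) : List (List Bool) :=
  els.map fun a => els.map fun b => rel a b

theorem le_mat (els : List A) (rel : A → A → Bool) (i j : Fin (mat els rel).length) :
    Le (mat els rel) i j ↔ rel (els[i.1]'(by simpa [mat] using i.2))
      (els[j.1]'(by simpa [mat] using j.2)) = true := by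
  have hi : i.1 < els.length := by simpa [mat] using i.2
  have hj : j.1 < els.length := by simpa [mat] using j.2
  simp [Le, mat, List.getD_eq_getElem?_getD, hi, hj]

theorem mat_eq {X : Type} (els : List A) (hn : els.Nodup) (rel : A → A → Bool) (enc : X → A)
    (hinj : Function.Injective enc) (hm : ∀ a, a ∈ els ↔ ∃ x, enc x = a) (r : X → X → Prop)
    (hr : ∀ x y, rel (enc x) (enc y) = true ↔ r x y) :
    ∃ e : Fin (mat els rel).length ≃ X, ∀ i j, r (e i) (e j) ↔ Le (mat els rel) i j := by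
  have h1 : ∀ i : Fin (mat els rel).length, ∃ x, enc x = els[i.1]'(by simpa [mat] using i.2) :=
    fun i => (hm _).1 (List.getElem_mem _)
  choose g hg using h1
  refine ⟨Equiv.ofBijective g ⟨fun i j h => ?_, fun x => ?_⟩, fun i j => ?_⟩
  · have := (hg i).symm.trans ((congrArg enc h).trans (hg j))
    exact Fin.ext ((List.Nodup.getElem_inj_iff hn).1 this)
  · obtain ⟨i, hi, e⟩ := List.getElem_of_mem ((hm _).2 ⟨x, rfl⟩)
    exact ⟨⟨i, by simpa [mat] using hi⟩, hinj ((hg _).trans e)⟩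
  · simp only [Equiv.ofBijective_apply]
    rw [le_mat, ← hr, hg, hg]

theorem mat_pos {X : Type} (els : List A) (rel : A → A → Bool) (r : X → X → Prop)
    (e : Fin (mat els rel).length ≃ X) (h : ∀ i j, r (e i) (e j) ↔ Le (mat els rel) i j)
    (h1 : ∀ a, r a a) (h2 : ∀ a b, r a b → r b a → a = b) (h3 : ∀ a b c, r a b → r b c → r a c) :
    IsPoset (mat els rel) ∧ cntEnd (mat els rel) = homc r r := by
  refine ⟨⟨fun l hl => ?_, fun i => (h _ _).1 (h1 _), fun i j a b => e.injective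
    (h2 _ _ ((h _ _).2 a) ((h _ _).2 b)), fun i j k a b =>
      (h _ _).1 (h3 _ _ _ ((h _ _).2 a) ((h _ _).2 b))⟩, homc_congr e e h h⟩
  obtain ⟨a, _, rfl⟩ := List.mem_map.1 hl
  simp [mat]

def valid (M m k : ℕ) (t : Bool) (a : A) : Bool :=
  (a.1 == 0 && a.2.1 == 0 && a.2.2 == 0) || (a.1 == 1 && decide (a.2.1 < M) && decide (a.2.2 < k)) ||
  (a.1 == 2 && decide (a.2.1 < M) && decide (a.2.2 < 2)) ||
  (a.1 == 3 && decide (a.2.1 < m) && decide (a.2.2 < k)) ||
  (t && a.1 == 4 && decide (a.2.1 < 2) && a.2.2 == 0)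

def els (M m k : ℕ) (t : Bool) : List A :=
  (List.range 5 ×ˢ (List.range (M + m + k + 2) ×ˢ List.range (M + m + k + 2))).filter
    (valid M m k t)

theorem els_nodup (M m k : ℕ) (t : Bool) : (els M m k t).Nodup :=
  (List.nodup_range.product (List.nodup_range.product List.nodup_range)).filter _

theorem mem_els (M m k : ℕ) (t : Bool) (a : A) : a ∈ els M m k t ↔ valid M m k t a = true := by
  obtain ⟨a, b, c⟩ := a
  simp only [els, List.mem_filter, List.mem_product, List.mem_range, and_iff_right_iff_imp]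
  simp only [valid, Bool.or_eq_true, Bool.and_eq_true, beq_iff_eq, decide_eq_true_eq]
  rintro ((((h | h) | h) | h) | ⟨⟨⟨_, h1⟩, h2⟩, h3⟩) <;> omega

def rel (ψ : List (List Lit)) (a b : A) : Bool :=
  a == b || (a.1 == 0 && decide (b.1 < 4)) || (a.1 == 1 && b.1 == 2 && a.2.1 == b.2.1) ||
  (a.1 == 2 && b.1 == 3 && (ψ.getD b.2.1 []).contains (a.2.1, a.2.2 == 1)) ||
  (a.1 == 1 && b.1 == 3 && (ψ.getD b.2.1 []).any fun l => l.1 == a.2.1) ||
  (a.1 == 4 && b.1 == 4 && a.2.1 == 0)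

abbrev X (M m k : ℕ) := Option ((Fin M × Fin k) ⊕ (Fin M × Bool) ⊕ (Fin m × Fin k))

def enc {M m k : ℕ} : X M m k → A
  | none => (0, 0, 0)
  | some (.inl a) => (1, a.1, a.2)
  | some (.inr (.inl a)) => (2, a.1, a.2.toNat)
  | some (.inr (.inr a)) => (3, a.1, a.2)

def enc2 {M m k : ℕ} : X M m k ⊕ Bool → A := Sum.elim enc fun b => (4, b.toNat, 0)

theorem toNat_inj {a b : Bool} : a.toNat = b.toNat ↔ a = b := by cases a <;> cases b <;> simp

theorem enc_inj {M m k : ℕ} : Function.Injective (enc (M := M) (m := m) (k := k)) := by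
  rintro (_ | ⟨a, a'⟩ | ⟨a, a'⟩ | ⟨a, a'⟩) (_ | ⟨b, b'⟩ | ⟨b, b'⟩ | ⟨b, b'⟩) h <;>
    simp_all [enc, Fin.val_inj, toNat_inj]

theorem enc_lt {M m k : ℕ} (x : X M m k) : (enc x).1 < 4 := by
  rcases x with _ | a | a | a <;> simp [enc]

theorem enc2_inj {M m k : ℕ} : Function.Injective (enc2 (M := M) (m := m) (k := k)) := by
  rintro (a | a) (b | b) h
  · exact congrArg _ (enc_inj h)
  · have := enc_lt a; have := congrArg Prod.fst h; simp [enc2] at this; omega
  · have := enc_lt b; have := congrArg Prod.fst h; simp [enc2] at this; omega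
  · simp_all [enc2, toNat_inj]

theorem val_enc (M m k : ℕ) (a : A) : valid M m k false a = true ↔ ∃ x : X M m k, enc x = a := by
  obtain ⟨a, b, c⟩ := a
  simp only [valid, Bool.or_eq_true, Bool.and_eq_true, beq_iff_eq, decide_eq_true_eq]
  constructor
  · rintro ((((⟨⟨rfl, rfl⟩, rfl⟩ | ⟨⟨rfl, h1⟩, h2⟩) | ⟨⟨rfl, h1⟩, h2⟩) | ⟨⟨rfl, h1⟩, h2⟩) | h)
    · exact ⟨none, rfl⟩
    · exact ⟨some (.inl (⟨b, h1⟩, ⟨c, h2⟩)), rfl⟩
    · refine ⟨some (.inr (.inl (⟨b, h1⟩, c == 1))), ?_⟩
      interval_cases c <;> rfl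
    · exact ⟨some (.inr (.inr (⟨b, h1⟩, ⟨c, h2⟩))), rfl⟩
    · simp at h
  · rintro ⟨_ | x | x | x, h⟩ <;> simp only [enc, Prod.mk.injEq] at h <;>
      obtain ⟨rfl, rfl, rfl⟩ := h <;> simp
    cases x.2 <;> simp

theorem val_enc2 (M m k : ℕ) (a : A) :
    valid M m k true a = true ↔ ∃ x : X M m k ⊕ Bool, enc2 x = a := by
  have : valid M m k true a = (valid M m k false a || (a.1 == 4 && decide (a.2.1 < 2) &&
      a.2.2 == 0)) := by simp [valid]
  rw [this, Bool.or_eq_true, val_enc]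
  obtain ⟨a, b, c⟩ := a
  simp only [Bool.and_eq_true, beq_iff_eq, decide_eq_true_eq]
  constructor
  · rintro (⟨x, h⟩ | ⟨⟨rfl, h⟩, rfl⟩)
    · exact ⟨.inl x, h⟩
    · refine ⟨.inr (b == 1), ?_⟩
      interval_cases b <;> rfl
  · rintro ⟨x | x, h⟩
    · exact Or.inl ⟨x, h⟩
    · simp only [enc2, Sum.elim_inr, Prod.mk.injEq] at h
      obtain ⟨rfl, rfl, rfl⟩ := h
      cases x <;> simp

def rr (M k : ℕ) (ψ : List (List Lit)) : X M ψ.length k → X M ψ.length k → Prop :=
  bot (r3 (lo M k) (up M k ψ))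

theorem rel_enc (M k : ℕ) (ψ : List (List Lit)) (x y : X M ψ.length k) :
    rel ψ (enc x) (enc y) = true ↔ rr M k ψ x y := by
  have e : ∀ b : Bool, (b.toNat == 1) = b := by decide
  rcases x with _ | ⟨a, a'⟩ | ⟨a, a'⟩ | ⟨a, a'⟩ <;> rcases y with _ | ⟨b, b'⟩ | ⟨b, b'⟩ | ⟨b, b'⟩ <;>
    simp [rel, enc, rr, bot, r3, lo, up, Fin.val_inj, toNat_inj, e]

theorem rel_enc2 (M k : ℕ) (ψ : List (List Lit)) (x y : X M ψ.length k ⊕ Bool) :
    rel ψ (enc2 x) (enc2 y) = true ↔ Sum.LiftRel (rr M k ψ) bl x y := by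
  rcases x with x | x <;> rcases y with y | y
  · simpa [enc2] using rel_enc M k ψ x y
  · rcases x with _ | a | a | a <;> simp [rel, enc2, enc]
  · rcases y with _ | a | a | a <;> simp [rel, enc2, enc]
  · cases x <;> cases y <;> simp [rel, enc2, bl]

theorem rr_refl (M k : ℕ) (ψ : List (List Lit)) (a : X M ψ.length k) : rr M k ψ a a := by
  cases a
  · trivial
  · exact r3_refl _ _ _

theorem rr_anti (M k : ℕ) (ψ : List (List Lit)) (a b : X M ψ.length k) (h : rr M k ψ a b)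
    (h' : rr M k ψ b a) : a = b := by
  cases a <;> cases b
  · rfl
  · exact h'.elim
  · exact h.elim
  · exact congrArg _ (r3_anti _ _ _ _ h h')

theorem rr_trans (M k : ℕ) (ψ : List (List Lit)) (a b c : X M ψ.length k) (h : rr M k ψ a b)
    (h' : rr M k ψ b c) : rr M k ψ a c := by
  cases a <;> cases b <;> cases c <;> first | trivial | exact h.elim | exact h'.elim | skip
  exact r3_trans _ _ _ _ _ h h'

def P (p : Cnf) (t : Bool) : List (List Bool) :=
  mat (els p.1 (ext2 p).length (p.1 + 1) t) (rel (ext2 p))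

def dd (p : Cnf) : ℕ :=
  (els p.1 (ext2 p).length (p.1 + 1) true ×ˢ els p.1 (ext2 p).length (p.1 + 1) true).countP
    fun q => rel (ext2 p) q.1 q.2

theorem P1 (p : Cnf) : IsPoset (P p false) ∧
    cntEnd (P p false) = homc (rr p.1 (p.1 + 1) (ext2 p)) (rr p.1 (p.1 + 1) (ext2 p)) := by
  obtain ⟨e, he⟩ := mat_eq _ (els_nodup p.1 (ext2 p).length (p.1 + 1) false) (rel (ext2 p)) enc
    enc_inj (fun a => (mem_els _ _ _ _ a).trans (val_enc _ _ _ a)) _ (rel_enc _ _ _)
  exact mat_pos _ _ _ e he (rr_refl _ _ _) (rr_anti _ _ _) (rr_trans _ _ _)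

theorem s_refl (M k : ℕ) (ψ : List (List Lit)) (a : X M ψ.length k ⊕ Bool) :
    Sum.LiftRel (rr M k ψ) bl a a := by
  cases a
  · exact .inl (rr_refl _ _ _ _)
  · exact .inr id

theorem P2 (p : Cnf) : IsPoset (P p true) ∧ cntEnd (P p true) =
    homc (Sum.LiftRel (rr p.1 (p.1 + 1) (ext2 p)) bl) (Sum.LiftRel (rr p.1 (p.1 + 1) (ext2 p)) bl) := by
  obtain ⟨e, he⟩ := mat_eq _ (els_nodup p.1 (ext2 p).length (p.1 + 1) true) (rel (ext2 p)) enc2
    enc2_inj (fun a => (mem_els _ _ _ _ a).trans (val_enc2 _ _ _ a)) _ (rel_enc2 _ _ _)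
  refine mat_pos _ _ _ e he (s_refl _ _ _) ?_ ?_
  · intro a b h h'
    cases h with
    | inl h => cases h' with | inl h' => exact congrArg _ (rr_anti _ _ _ _ _ h h')
    | inr h => cases h' with | inr h' => exact congrArg _ (Bool.eq_iff_iff.2 ⟨h, h'⟩)
  · intro a b c h h'
    cases h with
    | inl h => cases h' with | inl h' => exact .inl (rr_trans _ _ _ _ _ _ h h')
    | inr h => cases h' with | inr h' => exact .inr fun x => h' (h x)

theorem dd_eq (p : Cnf) : homc bl (Sum.LiftRel (rr p.1 (p.1 + 1) (ext2 p)) bl) = dd p := by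
  rw [homc_bool _ (s_refl _ _ _), dd, List.countP_eq_length_filter,
    ← List.toFinset_card_of_nodup (((els_nodup _ _ _ _).product (els_nodup _ _ _ _)).filter _),
    ← Nat.card_eq_finsetCard]
  refine Nat.card_congr (Equiv.ofBijective (fun q => ⟨(enc2 q.1.1, enc2 q.1.2), ?_⟩) ⟨?_, ?_⟩)
  · simp only [List.mem_toFinset, List.mem_filter, List.mem_product, mem_els, val_enc2]
    exact ⟨⟨⟨_, rfl⟩, ⟨_, rfl⟩⟩, (rel_enc2 _ _ _ _ _).2 q.2⟩
  · intro q q' h
    simp only [Subtype.mk.injEq, Prod.mk.injEq] at h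
    exact Subtype.ext (Prod.ext (enc2_inj h.1) (enc2_inj h.2))
  · rintro ⟨⟨a, b⟩, h⟩
    simp only [List.mem_toFinset, List.mem_filter, List.mem_product, mem_els, val_enc2] at h
    obtain ⟨⟨⟨x, rfl⟩, ⟨y, rfl⟩⟩, h⟩ := h
    exact ⟨⟨(x, y), (rel_enc2 _ _ _ _ _).1 h⟩, rfl⟩

theorem dd_pos (p : Cnf) : 0 < dd p := by
  rw [← dd_eq, homc_bool _ (s_refl _ _ _)]
  have : Nonempty {q : (X p.1 (ext2 p).length (p.1 + 1) ⊕ Bool) × (X p.1 (ext2 p).length (p.1 + 1) ⊕
    Bool) // Sum.LiftRel (rr p.1 (p.1 + 1) (ext2 p)) bl q.1 q.2} :=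
    ⟨⟨(.inr true, .inr true), s_refl _ _ _ _⟩⟩
  exact Nat.card_pos

def C (q : Cnf × List Bn) : Bn :=
  low (bsub (bsub (bdiv (q.2.getD 1 ⟨0⟩) (dd q.1 - 1)) (q.2.getD 0 ⟨0⟩)) ⟨1⟩) (q.1.1 + 1)

theorem PT_els (t : Bool) : PT fun p : Cnf => els p.1 (ext2 p).length (p.1 + 1) t := by
  unfold els valid ext2; fun_prop

theorem PT_rel : PT fun q : Cnf × A × A => rel (ext2 q.1) q.2.1 q.2.2 := by
  unfold rel ext2; fun_prop

theorem PT_P (t : Bool) : PT fun p => P p t := by
  unfold P mat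
  refine PT.map (PT_els t) (PT.map ((PT_els t).comp (by fun_prop)) ?_)
  exact PT_rel.comp (g := fun q : (Cnf × A) × A => (q.1.1, q.1.2, q.2)) (by fun_prop)

theorem PT_dd : PT dd := by
  unfold dd
  exact PT.countP (PT.product (PT_els _) (PT_els _)) PT_rel

/-- Counting the order-preserving self-maps of a finite poset is #P-complete. -/
theorem result : InSharpP cntEnd ∧ SharpPHardOn IsPoset cntEnd := by
  constructor
  · refine inSharpP_funs List.length List.length (by fun_prop) (by fun_prop) _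
      (fun A l => (List.range A.length).all fun i => (List.range A.length).all fun j =>
        !(A.getD i []).getD j false || (A.getD (l.getD i 0) []).getD (l.getD j 0) false)
      (by fun_prop) fun A f => ?_
    simp only [List.all_eq_true, List.mem_range, Bool.or_eq_true, Bool.not_eq_true']
    have e : ∀ i : Fin A.length, (List.ofFn fun i => (f i : ℕ)).getD i 0 = f i := fun i => by
      simp [List.getD_eq_getElem?_getD]
    refine ⟨fun h i j hij => ?_, fun h i hi j hj => ?_⟩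
    · have := h i i.2 j j.2
      rw [e, e] at this
      exact this.resolve_left (by rw [show (A.getD i []).getD j false = true from hij]; simp)
    · rw [e ⟨i, hi⟩, e ⟨j, hj⟩]
      cases h1 : (A.getD i []).getD j false
      · exact Or.inl rfl
      · exact Or.inr (h ⟨i, hi⟩ ⟨j, hj⟩ h1)
  · have h1 := PT_dd
    refine sharp_of_sat _ _ (fun p => [P p false, P p true]) C
      (PT.cons (PT_P _) (PT.cons (PT_P _) (by fun_prop))) (by unfold C; fun_prop) ?_ ?_
    · intro p _ y hy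
      simp only [List.mem_cons, List.not_mem_nil, or_false] at hy
      rcases hy with rfl | rfl
      · exact (P1 p).1
      · exact (P2 p).1
    · intro p hp
      have h2 := dd_pos p
      have h3 := homc_mod p hp (p.1 + 1)
      have h4 := cnt_le p
      have h5 : cntSAT p < 2 ^ (p.1 + 1) := by rw [pow_succ]; have := Nat.two_pow_pos p.1; omega
      simp only [C, List.map_cons, List.map_nil, List.getD_cons_succ, List.getD_cons_zero, low, bsub,
        bdiv, (P1 p).2, (P2 p).2]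
      rw [homc_sum_left, dd_eq, homc_sum_right _ none (fun _ => trivial),
        show dd p - 1 + 1 = dd p by omega, Nat.mul_div_cancel _ h2, Nat.add_sub_cancel_left]
      congr 1
      rw [rr, homc_bot, Nat.add_sub_cancel, h3, Nat.mod_eq_of_lt h5]

end Pool.Agent.Results.MP_593132_lc.SharpP
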